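import Mathlib

/-!
The rank of a Noetherian base cannot always be lowered to a cardinal by passing to a subfamily.
-/

set_option autoImplicit false

open Set Filter Topology TopologicalSpace Ordinal

namespace Pool.Agent.Results.MP_5675d3_gt.NoLowering

universe u

/-- A Noetherian family of sets. -/
def Noetherian {X : Type u} (𝒜 : Set (Set X)) : Prop :=
  𝒜.Nonempty ∧ ∅ ∉ 𝒜 ∧ ¬ ∃ A : ℕ → Set X, (∀ n, A n ∈ 𝒜) ∧ ∀ n, A n ⊂ A (n + 1)

/-- A Noetherian base of the space `X`. -/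
def NoetherianBase {X : Type u} [TopologicalSpace X] (ℬ : Set (Set X)) : Prop :=
  IsTopologicalBasis ℬ ∧ Noetherian ℬ

/-- The `i`-th layer of `𝒜`: the maximal elements of the set of those members of `𝒜` that are in no
earlier layer. -/
noncomputable def layer {X : Type u} (𝒜 : Set (Set X)) (i : Ordinal.{u}) : Set (Set X) :=
  {A | Maximal (fun B => B ∈ 𝒜 ∧ ∀ j : Ordinal.{u}, ∀ _h : j < i, B ∉ layer 𝒜 j) A}
termination_by i

/-- `α` is the rank of `𝒜`: the least ordinal with `𝒜 = ⋃_{i < α} 𝒜_i`. -/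
def IsRank {X : Type u} (𝒜 : Set (Set X)) (α : Ordinal.{u}) : Prop :=
  IsLeast {α : Ordinal.{u} | 𝒜 = ⋃ i ∈ Iio α, layer 𝒜 i} α

section rank

variable {X : Type u} {𝒜 : Set (Set X)}

lemma wf_of_noetherian (h : Noetherian 𝒜) : IsWellFounded 𝒜 (fun A B : 𝒜 => B.1 ⊂ A.1) := by
  refine ⟨wellFounded_iff_isEmpty_descending_chain.2 ⟨?_⟩⟩
  rintro ⟨A, hA⟩
  exact h.2.2 ⟨fun n => (A n).1, fun n => (A n).2, hA⟩

lemma layer_eq [IsWellFounded 𝒜 (fun A B : 𝒜 => B.1 ⊂ A.1)] (i : Ordinal.{u}) :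
    layer 𝒜 i =
      {A | ∃ hA : A ∈ 𝒜, IsWellFounded.rank (fun A B : 𝒜 => B.1 ⊂ A.1) ⟨A, hA⟩ = i} := by
  induction i using WellFoundedLT.induction with
  | ind i ih =>
  have key : ∀ B : Set X, (B ∈ 𝒜 ∧ ∀ j : Ordinal.{u}, ∀ _h : j < i, B ∉ layer 𝒜 j) ↔
      ∃ hB : B ∈ 𝒜, i ≤ IsWellFounded.rank (fun A B : 𝒜 => B.1 ⊂ A.1) ⟨B, hB⟩ := by
    intro B
    constructor
    · rintro ⟨hB, h⟩
      refine ⟨hB, ?_⟩
      by_contra hlt
      rw [not_le] at hlt
      apply h _ hlt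
      rw [ih _ hlt]
      exact ⟨hB, rfl⟩
    · rintro ⟨hB, h⟩
      refine ⟨hB, fun j hj hBj => ?_⟩
      rw [ih _ hj] at hBj
      obtain ⟨_, hj'⟩ := hBj
      rw [hj'] at h
      exact absurd hj (not_lt.2 h)
  ext A
  rw [layer]
  constructor
  · rintro ⟨hA, hmax⟩
    obtain ⟨hA', hle⟩ := (key A).1 hA
    refine ⟨hA', le_antisymm ?_ hle⟩
    by_contra hlt
    rw [not_le, IsWellFounded.rank_eq, Ordinal.lt_iSup_iff] at hlt
    obtain ⟨⟨B, hBA⟩, hB⟩ := hlt
    rw [Order.lt_succ_iff] at hB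
    exact hBA.2 (hmax ((key B.1).2 ⟨B.2, hB⟩) hBA.1)
  · rintro ⟨hA, hrank⟩
    refine ⟨(key A).2 ⟨hA, hrank.ge⟩, fun B hB hAB => ?_⟩
    obtain ⟨hB', hle⟩ := (key B).1 hB
    by_contra hBA
    have h1 : IsWellFounded.rank (fun A B : 𝒜 => B.1 ⊂ A.1) ⟨B, hB'⟩ <
        IsWellFounded.rank (fun A B : 𝒜 => B.1 ⊂ A.1) ⟨A, hA⟩ :=
      IsWellFounded.rank_lt_of_rel (r := fun A B : 𝒜 => B.1 ⊂ A.1)
        (show A ⊂ B from ⟨hAB, hBA⟩)
    rw [hrank] at h1
    exact absurd h1 (not_lt.2 hle)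

lemma isRank_succ_of [IsWellFounded 𝒜 (fun A B : 𝒜 => B.1 ⊂ A.1)] {β : Ordinal.{u}}
    (h1 : ∀ A, IsWellFounded.rank (fun A B : 𝒜 => B.1 ⊂ A.1) A ≤ β)
    (h2 : ∃ A, IsWellFounded.rank (fun A B : 𝒜 => B.1 ⊂ A.1) A = β) :
    IsRank 𝒜 (β + 1) := by
  constructor
  · ext A
    constructor
    · intro hA
      refine mem_iUnion₂.2 ⟨IsWellFounded.rank (fun A B : 𝒜 => B.1 ⊂ A.1) ⟨A, hA⟩, ?_, ?_⟩
      · exact Order.lt_add_one_iff.2 (h1 _)
      · rw [layer_eq]
        exact ⟨hA, rfl⟩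
    · intro hA
      obtain ⟨i, _, hi⟩ := mem_iUnion₂.1 hA
      rw [layer_eq] at hi
      exact hi.1
  · intro γ hγ
    obtain ⟨A, hA⟩ := h2
    have h3 : A.1 ∈ ⋃ i ∈ Iio γ, layer 𝒜 i := by
      have hγ' : 𝒜 = ⋃ i ∈ Iio γ, layer 𝒜 i := hγ
      rw [← hγ']
      exact A.2
    obtain ⟨i, hi, hAi⟩ := mem_iUnion₂.1 h3
    rw [layer_eq] at hAi
    obtain ⟨_, hAi⟩ := hAi
    have : β < γ := by
      rw [← hA]
      have h4 : IsWellFounded.rank (fun A B : 𝒜 => B.1 ⊂ A.1) A = i := hAi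
      rw [h4]
      exact hi
    exact Order.add_one_le_of_lt this

end rank

/-! ### The space -/

/-- A family of injective sequences of reals with pairwise almost disjoint ranges. -/
def AD (L : Set (ℕ → ℝ)) : Prop :=
  (∀ s ∈ L, Function.Injective s) ∧ ∀ s ∈ L, ∀ t ∈ L, s ≠ t → (range s ∩ range t).Finite

/-- Maximal almost disjoint families exist. -/
lemma exists_MAD : ∃ L : Set (ℕ → ℝ), AD L ∧
    ∀ N : Set ℝ, N.Infinite → ∃ s ∈ L, (range s ∩ N).Infinite := by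
  obtain ⟨L, hL⟩ := zorn_subset {L : Set (ℕ → ℝ) | AD L} (by
    intro c hc hchain
    refine ⟨⋃₀ c, ⟨?_, ?_⟩, fun s hs => subset_sUnion_of_mem hs⟩
    · rintro s ⟨M, hM, hs⟩
      exact (hc hM).1 s hs
    · rintro s ⟨M, hM, hs⟩ t ⟨M', hM', ht⟩ hne
      rcases hchain.total hM hM' with h | h
      · exact (hc hM').2 s (h hs) t ht hne
      · exact (hc hM).2 s hs t (h ht) hne)
  refine ⟨L, hL.prop, fun N hN => ?_⟩
  by_contra hcon
  push Not at hcon
  set t : ℕ → ℝ := fun n => (Set.Infinite.natEmbedding N hN n : ℝ) with ht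
  have htinj : Function.Injective t :=
    Subtype.val_injective.comp (Set.Infinite.natEmbedding N hN).injective
  have htN : range t ⊆ N := by
    rintro _ ⟨n, rfl⟩
    exact (Set.Infinite.natEmbedding N hN n).2
  have hfin : ∀ s ∈ L, (range s ∩ range t).Finite := fun s hs =>
    (hcon s hs).subset (inter_subset_inter_right _ htN)
  have h1 : insert t L ∈ {L : Set (ℕ → ℝ) | AD L} := by
    refine ⟨?_, ?_⟩
    · rintro s (rfl | hs)
      · exact htinj
      · exact hL.prop.1 s hs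
    · rintro s (rfl | hs) s' (rfl | hs') hne
      · exact absurd rfl hne
      · rw [inter_comm]
        exact hfin s' hs'
      · exact hfin s hs
      · exact hL.prop.2 s hs s' hs' hne
  have h2 := hL.eq_of_subset h1 (subset_insert _ _)
  have h3 : t ∈ L := by rw [h2]; exact mem_insert _ _
  have h4 := hfin t h3
  rw [inter_self] at h4
  exact (infinite_range_of_injective htinj) h4

/-- A maximal almost disjoint family of injective sequences. -/
noncomputable def L : Set (ℕ → ℝ) := Classical.choose exists_MAD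

lemma L_AD : AD L := (Classical.choose_spec exists_MAD).1

lemma L_max (N : Set ℝ) (hN : N.Infinite) : ∃ s ∈ L, (range s ∩ N).Infinite :=
  (Classical.choose_spec exists_MAD).2 N hN

/-- The example: the disjoint union of `ℝ` and of `L`. -/
def X : Type := ℝ ⊕ L

/-- The (isolated) point of `X` given by a real number. -/
def pt (x : ℝ) : X := Sum.inl x

/-- The point of `X` given by a sequence in `L`. -/
def lim (s : L) : X := Sum.inr s

lemma pt_inj {x y : ℝ} (h : pt x = pt y) : x = y := Sum.inl_injective h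

lemma lim_inj {s t : L} (h : lim s = lim t) : s = t := Sum.inr_injective h

lemma pt_ne_lim {x : ℝ} {s : L} : pt x ≠ lim s := Sum.inl_ne_inr

/-- The topology of `X`: `U` is open iff with each `s ∈ L` it contains `s j` for all but finitely
many `j`. -/
instance : TopologicalSpace X where
  IsOpen U := ∀ s : L, lim s ∈ U → ∃ k, ∀ j ≥ k, pt (s.1 j) ∈ U
  isOpen_univ := fun _ _ => ⟨0, fun _ _ => mem_univ _⟩
  isOpen_inter := by
    rintro U V hU hV s ⟨h1, h2⟩
    obtain ⟨k, hk⟩ := hU s h1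
    obtain ⟨l, hl⟩ := hV s h2
    exact ⟨max k l, fun j hj => ⟨hk j (le_of_max_le_left hj), hl j (le_of_max_le_right hj)⟩⟩
  isOpen_sUnion := by
    rintro S hS s ⟨U, hU, h⟩
    obtain ⟨k, hk⟩ := hS U hU s h
    exact ⟨k, fun j hj => ⟨U, hU, hk j hj⟩⟩

/-- The basic neighbourhoods of the point `s ∈ L`. -/
def bk (k : ℕ) (s : L) : Set X := insert (lim s) {z | ∃ j ≥ k, z = pt (s.1 j)}

/-- The base. -/
def base : Set (Set X) := {B | (∃ x, B = {pt x}) ∨ ∃ k s, B = bk k s}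

lemma lim_mem_bk {s t : L} {k : ℕ} : lim s ∈ bk k t ↔ s = t := by
  constructor
  · rintro (h | ⟨j, _, h⟩)
    · exact lim_inj h
    · exact absurd h.symm pt_ne_lim
  · rintro rfl
    exact Or.inl rfl

lemma pt_mem_bk {x : ℝ} {s : L} {k : ℕ} : pt x ∈ bk k s ↔ ∃ j ≥ k, x = s.1 j := by
  constructor
  · rintro (h | ⟨j, hj, h⟩)
    · exact absurd h pt_ne_lim
    · exact ⟨j, hj, pt_inj h⟩
  · rintro ⟨j, hj, rfl⟩
    exact Or.inr ⟨j, hj, rfl⟩

lemma isOpen_pt (x : ℝ) : IsOpen ({pt x} : Set X) := by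
  intro s hs
  exact absurd (show lim s = pt x from hs).symm pt_ne_lim

lemma isOpen_bk (k : ℕ) (s : L) : IsOpen (bk k s) := by
  intro t ht
  rw [lim_mem_bk] at ht
  subst ht
  exact ⟨k, fun j hj => pt_mem_bk.2 ⟨j, hj, rfl⟩⟩

lemma eventually_notMem {t : L} {F : Set ℝ} (hF : (range t.1 ∩ F).Finite) :
    ∃ k, ∀ j ≥ k, t.1 j ∉ F := by
  have hinj := L_AD.1 t.1 t.2
  have h1 : (t.1 ⁻¹' F).Finite := by
    have h2 : (t.1 ⁻¹' (range t.1 ∩ F)).Finite := hF.preimage hinj.injOn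
    exact h2.subset fun j hj => ⟨⟨j, rfl⟩, hj⟩
  obtain ⟨k, hk⟩ := h1.bddAbove
  refine ⟨k + 1, fun j hj hjF => ?_⟩
  have := hk hjF
  omega

lemma isClosed_pt (x : ℝ) : IsClosed ({pt x} : Set X) := by
  rw [← isOpen_compl_iff]
  intro t _
  obtain ⟨k, hk⟩ := eventually_notMem (t := t) (F := {x}) ((finite_singleton x).inter_of_right _)
  exact ⟨k, fun j hj h => hk j hj (pt_inj h)⟩

lemma isClosed_lim (s : L) : IsClosed ({lim s} : Set X) := by
  rw [← isOpen_compl_iff]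
  intro t _
  exact ⟨0, fun j _ h => pt_ne_lim h⟩

lemma isClosed_bk (k : ℕ) (s : L) : IsClosed (bk k s) := by
  rw [← isOpen_compl_iff]
  intro t ht
  have hts : t ≠ s := fun h => ht (lim_mem_bk.2 h)
  obtain ⟨l, hl⟩ := eventually_notMem (t := t) (F := range s.1)
    (L_AD.2 t.1 t.2 s.1 s.2 fun h => hts (Subtype.ext h))
  refine ⟨l, fun j hj h => ?_⟩
  obtain ⟨i, _, hi⟩ := pt_mem_bk.1 h
  exact hl j hj ⟨i, hi.symm⟩

instance : T1Space X := ⟨by
  rintro (x | s)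
  · exact isClosed_pt x
  · exact isClosed_lim s⟩

lemma isBasis_base : IsTopologicalBasis base := by
  refine isTopologicalBasis_of_isOpen_of_nhds ?_ ?_
  · rintro _ (⟨x, rfl⟩ | ⟨k, s, rfl⟩)
    · exact isOpen_pt x
    · exact isOpen_bk k s
  · rintro (x | s) U hxU hU
    · exact ⟨{pt x}, Or.inl ⟨x, rfl⟩, rfl, singleton_subset_iff.2 hxU⟩
    · obtain ⟨k, hk⟩ := hU s hxU
      refine ⟨bk k s, Or.inr ⟨k, s, rfl⟩, Or.inl rfl, ?_⟩
      rintro _ (rfl | ⟨j, hj, rfl⟩)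
      · exact hxU
      · exact hk j hj

lemma isBasis_clopen : IsTopologicalBasis {s : Set X | IsClopen s} := by
  refine isTopologicalBasis_of_isOpen_of_nhds (fun s hs => hs.isOpen) ?_
  intro z U hz hU
  obtain ⟨B, hB, hzB, hBU⟩ := isBasis_base.exists_subset_of_mem_open hz hU
  refine ⟨B, ⟨?_, isBasis_base.isOpen hB⟩, hzB, hBU⟩
  rcases hB with (⟨x, rfl⟩ | ⟨k, s, rfl⟩)
  · exact isClosed_pt x
  · exact isClosed_bk k s

instance : CompletelyRegularSpace X :=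
  CompletelyRegularSpace.of_isTopologicalBasis_clopens isBasis_clopen

instance : T35Space X where

/-! ### The ranks -/

lemma bk_ssubset {k : ℕ} {s : L} {B : Set X} (h : bk k s ⊂ B) (hB : B ∈ base) :
    ∃ l < k, B = bk l s := by
  rcases hB with (⟨x, rfl⟩ | ⟨l, t, rfl⟩)
  · exact absurd (h.1 (Or.inl rfl) : lim s = pt x).symm pt_ne_lim
  · have hst : s = t := lim_mem_bk.1 (h.1 (Or.inl rfl))
    subst hst
    refine ⟨l, ?_, rfl⟩
    by_contra hkl
    apply h.2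
    rintro _ (rfl | ⟨j, hj, rfl⟩)
    · exact Or.inl rfl
    · exact Or.inr ⟨j, (not_lt.1 hkl).trans hj, rfl⟩

lemma bk_ssubset_bk {k l : ℕ} (s : L) (h : k < l) : bk l s ⊂ bk k s := by
  refine ⟨?_, ?_⟩
  · rintro _ (rfl | ⟨j, hj, rfl⟩)
    · exact Or.inl rfl
    · exact Or.inr ⟨j, h.le.trans hj, rfl⟩
  · intro hsub
    obtain ⟨j, hj, hjk⟩ := pt_mem_bk.1 (hsub (pt_mem_bk.2 ⟨k, le_rfl, rfl⟩))
    have := L_AD.1 s.1 s.2 hjk
    omega

lemma base_noetherian_chain : ¬ ∃ A : ℕ → Set X, (∀ n, A n ∈ base) ∧ ∀ n, A n ⊂ A (n + 1) := by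
  rintro ⟨A, hA, hA'⟩
  -- from index 1 on, all members are of the form `bk k s`, with strictly decreasing `k`
  have h1 : ∀ n, ∃ k s, A (n + 1) = bk k s := by
    intro n
    rcases hA (n + 1) with (⟨x, hx⟩ | h)
    · exfalso
      have h2 := hA' n
      rw [hx] at h2
      rcases ssubset_singleton_iff.1 h2 with h3
      rcases hA n with (⟨y, hy⟩ | ⟨k, s, hs⟩)
      · rw [hy] at h3
        exact (singleton_ne_empty _ h3)
      · rw [hs] at h3
        have : lim s ∈ (∅ : Set X) := by rw [← h3]; exact Or.inl rfl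
        exact this
    · exact h
  choose k s hks using h1
  have h2 : ∀ n, k (n + 1) < k n := by
    intro n
    have h3 := hA' (n + 1)
    rw [hks n, hks (n + 1)] at h3
    have hst : s n = s (n + 1) := lim_mem_bk.1 (h3.1 (Or.inl rfl))
    by_contra hle
    apply h3.2
    rw [hst]
    rintro _ (rfl | ⟨j, hj, rfl⟩)
    · exact Or.inl rfl
    · exact Or.inr ⟨j, (not_lt.1 hle).trans hj, rfl⟩
  have h3 : ∀ n, k n + n ≤ k 0 := by
    intro n
    induction n with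
    | zero => simp
    | succ n ih =>
      have := h2 n
      omega
  have := h3 (k 0 + 1)
  omega

lemma base_noetherian : NoetherianBase base := by
  refine ⟨isBasis_base, ⟨{pt 0}, Or.inl ⟨0, rfl⟩⟩, ?_, base_noetherian_chain⟩
  rintro (⟨x, hx⟩ | ⟨k, s, hs⟩)
  · exact singleton_ne_empty _ hx.symm
  · have : lim s ∈ (∅ : Set X) := by rw [hs]; exact Or.inl rfl
    exact this

/-- Every base contained in `base` has rank `ω + 1`. -/
lemma rank_eq (ℬ : Set (Set X)) (hsub : ℬ ⊆ base) (hℬ : NoetherianBase ℬ) :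
    IsRank ℬ (ω + 1) := by
  have := wf_of_noetherian hℬ.2
  set rk : ℬ → Ordinal.{0} := IsWellFounded.rank (fun A B : ℬ => B.1 ⊂ A.1) with hrk
  have hlt : ∀ A B : ℬ, A.1 ⊂ B.1 → rk B < rk A := fun A B h =>
    IsWellFounded.rank_lt_of_rel (r := fun A B : ℬ => B.1 ⊂ A.1) h
  have hle : ∀ (A : ℬ) (β : Ordinal.{0}), (∀ B : ℬ, A.1 ⊂ B.1 → rk B < β) → rk A ≤ β := by
    intro A β h
    rw [hrk, IsWellFounded.rank_eq]
    refine Ordinal.iSup_le ?_
    rintro ⟨B, hB⟩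
    exact Order.succ_le_of_lt (h B hB)
  -- the singletons belong to `ℬ`
  have hpt : ∀ x, {pt x} ∈ ℬ := by
    intro x
    obtain ⟨B, hB, hxB, hBx⟩ := hℬ.1.exists_subset_of_mem_open (mem_singleton (pt x)) (isOpen_pt x)
    have : B = {pt x} := Subset.antisymm hBx (singleton_subset_iff.2 hxB)
    exact this ▸ hB
  -- arbitrarily small basic neighbourhoods belong to `ℬ`
  have hbk : ∀ (s : L) (k : ℕ), ∃ l ≥ k, bk l s ∈ ℬ := by
    intro s k
    obtain ⟨B, hB, hsB, hBk⟩ := hℬ.1.exists_subset_of_mem_open (show lim s ∈ bk k s from Or.inl rfl)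
      (isOpen_bk k s)
    rcases hsub hB with (⟨x, rfl⟩ | ⟨l, t, rfl⟩)
    · exact absurd (show lim s = pt x from hsB).symm pt_ne_lim
    · have hst := lim_mem_bk.1 hsB
      subst hst
      refine ⟨l, ?_, hB⟩
      obtain ⟨j, hj, hjl⟩ := pt_mem_bk.1 (hBk (pt_mem_bk.2 ⟨l, le_rfl, rfl⟩))
      have := L_AD.1 s.1 s.2 hjl
      omega
  -- upper bounds
  have hup : ∀ (k : ℕ) (s : L) (h : bk k s ∈ ℬ), rk ⟨bk k s, h⟩ ≤ k := by
    intro k
    induction k using Nat.strong_induction_on with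
    | _ k ih =>
    intro s h
    apply hle
    rintro ⟨B, hB⟩ hB'
    obtain ⟨l, hl, rfl⟩ := bk_ssubset hB' (hsub hB)
    exact (ih l hl s hB).trans_lt (Nat.cast_lt.2 hl)
  have hupω : ∀ A : ℬ, rk A ≤ ω := by
    intro A
    apply hle
    rintro ⟨B, hB⟩ hAB
    rcases hsub hB with (⟨x, rfl⟩ | ⟨l, t, rfl⟩)
    · exfalso
      have h1 : A.1 = ∅ := ssubset_singleton_iff.1 hAB
      exact hℬ.2.2.1 (h1 ▸ A.2)
    · exact (hup l t hB).trans_lt (natCast_lt_omega0 l)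
  -- lower bounds
  have hlow : ∀ (s : L) (n : ℕ), ∃ (k : ℕ) (h : bk k s ∈ ℬ), (n : Ordinal.{0}) ≤ rk ⟨bk k s, h⟩ := by
    intro s n
    induction n with
    | zero =>
      obtain ⟨l, _, hl⟩ := hbk s 0
      exact ⟨l, hl, by simp⟩
    | succ n ih =>
      obtain ⟨k, hk, hkn⟩ := ih
      obtain ⟨l, hl, hlB⟩ := hbk s (k + 1)
      refine ⟨l, hlB, ?_⟩
      have h1 : rk ⟨bk k s, hk⟩ < rk ⟨bk l s, hlB⟩ :=
        hlt ⟨bk l s, hlB⟩ ⟨bk k s, hk⟩ (bk_ssubset_bk s (by omega))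
      have h2 := Order.add_one_le_of_lt (hkn.trans_lt h1)
      exact_mod_cast h2
  -- some singleton has rank `ω`
  have hω : ∃ A : ℬ, rk A = ω := by
    by_contra hcon
    push Not at hcon
    have h1 : ∀ x : ℝ, ∃ m : ℕ, rk ⟨{pt x}, hpt x⟩ = m := fun x =>
      lt_omega0.1 (lt_of_le_of_ne (hupω _) (hcon _))
    choose m hm using h1
    obtain ⟨n, hn⟩ : ∃ n, (m ⁻¹' {n}).Infinite := by
      by_contra hfin
      push Not at hfin
      have h2 : (univ : Set ℝ).Countable := by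
        have : (univ : Set ℝ) = ⋃ n, m ⁻¹' {n} := by
          ext x
          simp
        rw [this]
        exact countable_iUnion fun n => (hfin n).countable
      exact not_countable_univ h2
    obtain ⟨s, hs, hsn⟩ := L_max _ hn
    obtain ⟨k, hk, hkn⟩ := hlow ⟨s, hs⟩ n
    obtain ⟨x, ⟨⟨j, rfl⟩, hxn⟩, hxk⟩ := hsn.exists_notMem_finite ((finite_Iio k).image s)
    have hjk : k ≤ j := by
      by_contra h
      exact hxk ⟨j, not_le.1 h, rfl⟩
    have h2 : rk ⟨bk k ⟨s, hs⟩, hk⟩ < rk ⟨{pt (s j)}, hpt _⟩ := by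
      apply hlt ⟨{pt (s j)}, hpt _⟩ ⟨bk k ⟨s, hs⟩, hk⟩
      refine ⟨singleton_subset_iff.2 (pt_mem_bk.2 ⟨j, hjk, rfl⟩), fun h => ?_⟩
      have h3 : lim ⟨s, hs⟩ = pt (s j) := h (Or.inl rfl)
      exact pt_ne_lim h3.symm
    have h3 : m (s j) = n := hxn
    rw [hm, h3] at h2
    exact absurd hkn (not_le.2 h2)
  exact isRank_succ_of hupω hω

/-- **The rank of a Noetherian base cannot always be lowered to a cardinal by passing to a
subfamily.**  There are a Tychonoff space `X` with a clopen base, and a Noetherian base `ℬ` of `X`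
whose rank `ρ` is not a cardinal, such that every Noetherian base `ℬ' ⊆ ℬ` has a rank, and this
rank is larger than (the initial ordinal of) the cardinality of `ρ`. -/
theorem result : ∃ (X : Type) (_ : TopologicalSpace X) (ℬ : Set (Set X)) (ρ : Ordinal.{0}),
    T35Space X ∧ NoetherianBase ℬ ∧ IsRank ℬ ρ ∧ ρ ≠ ρ.card.ord ∧
      ∀ ℬ' ⊆ ℬ, NoetherianBase ℬ' → ∃ ρ', IsRank ℬ' ρ' ∧ ρ.card.ord < ρ' := by
  have h1 : (ω + 1 : Ordinal.{0}).card.ord = ω := by
    rw [Ordinal.card_add, Ordinal.card_omega0, Ordinal.card_one,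
      Cardinal.add_one_eq le_rfl, Cardinal.ord_aleph0]
  have h2 : (ω : Ordinal.{0}) < ω + 1 := Order.lt_add_one_iff.2 le_rfl
  refine ⟨X, inferInstance, base, ω + 1, inferInstance, base_noetherian,
    rank_eq base Subset.rfl base_noetherian, ?_, ?_⟩
  · rw [h1]
    exact h2.ne'
  · intro ℬ' hsub hℬ'
    refine ⟨ω + 1, rank_eq ℬ' hsub hℬ', ?_⟩
    rw [h1]
    exact h2

end Pool.Agent.Results.MP_5675d3_gt.NoLowering
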